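import Pool.Agent.T6.H89.Vis.Flat
import Pool.Agent.T6.H89.Vis.Poly

/-!
# The growth rate of the number of visibility graphs of simple polygons

`log₂ N(n) = Θ(n log n)`.
-/

set_option autoImplicit false

open Filter Asymptotics
open Pool.Agent.T6.H89.Vis

namespace Pool.Agent.Results.MP_af711c_co.GrowthRate

theorem nStrict_pos {n : ℕ} (hn : 8 ≤ n) : 0 < NStrict n := by
  obtain ⟨k, t, hk, ht, rfl⟩ : ∃ k t, 1 ≤ k ∧ t ≤ 3 ∧ n = 2 * k + 2 + (2 * k + t + 2) :=
    ⟨(n - 4) / 4, (n - 4) % 4, by omega, by omega, by omega⟩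
  have h := lower_count hk ht
  rcases Nat.eq_zero_or_pos (NStrict (2 * k + 2 + (2 * k + t + 2))) with h0 | h0
  · rw [h0, zero_mul] at h
    have : 0 < (k + 1) ^ k := by positivity
    omega
  · exact h0

theorem lower (n : ℕ) (hn : 2 ^ 41 ≤ n) :
    1 / 8 * ((n : ℝ) * Real.logb 2 n) ≤ Real.logb 2 (NStrict n) := by
  have h8 : 8 ≤ n := le_trans (by norm_num) hn
  have hpos := nStrict_pos h8
  have hnR : (2 : ℝ) ^ 41 ≤ n := by exact_mod_cast hn
  have hn0 : (0 : ℝ) < n := lt_of_lt_of_le (by norm_num) hnR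
  obtain ⟨k, t, hk, ht, hnk⟩ : ∃ k t, 1 ≤ k ∧ t ≤ 3 ∧ n = 2 * k + 2 + (2 * k + t + 2) :=
    ⟨(n - 4) / 4, (n - 4) % 4, by omega, by omega, by omega⟩
  have h := lower_count hk ht
  rw [← hnk] at h
  have hR : ((k : ℝ) + 1) ^ k ≤ (NStrict n : ℝ) * 4 ^ n := by exact_mod_cast h
  have hN0 : (0 : ℝ) < NStrict n := by exact_mod_cast hpos
  have hk0 : (0 : ℝ) < (k : ℝ) + 1 := by positivity
  have hlog := Real.logb_le_logb_of_le (b := 2) (by norm_num) (by positivity) hR
  rw [Real.logb_mul hN0.ne' (by positivity), Real.logb_pow, Real.logb_pow] at hlog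
  have h4 : Real.logb 2 4 = 2 := by
    have : (4 : ℝ) = 2 ^ (2 : ℕ) := by norm_num
    rw [this, Real.logb_pow, Real.logb_self_eq_one (by norm_num)]
    norm_num
  rw [h4] at hlog
  -- the comparison with `n`
  have hkn : (n : ℝ) ≤ 4 * k + 7 := by
    have : n ≤ 4 * k + 7 := by omega
    exact_mod_cast this
  have hk1 : (n : ℝ) / 8 ≤ (k : ℝ) + 1 := by
    have : (16 : ℝ) ≤ n := le_trans (by norm_num) hnR
    linarith
  have hlogn : (41 : ℝ) ≤ Real.logb 2 n := by
    rw [Real.le_logb_iff_rpow_le (by norm_num) hn0]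
    have : (2 : ℝ) ^ (41 : ℝ) = 2 ^ (41 : ℕ) := by
      rw [← Real.rpow_natCast]
      norm_num
    rw [this]
    exact hnR
  have hlogk : Real.logb 2 n - 3 ≤ Real.logb 2 ((k : ℝ) + 1) := by
    have h1 := Real.logb_le_logb_of_le (b := 2) (by norm_num) (by positivity) hk1
    have h8' : Real.logb 2 8 = 3 := by
      have : (8 : ℝ) = 2 ^ (3 : ℕ) := by norm_num
      rw [this, Real.logb_pow, Real.logb_self_eq_one (by norm_num)]
      norm_num
    rw [Real.logb_div hn0.ne' (by norm_num), h8'] at h1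
    exact h1
  set ℓ := Real.logb 2 (n : ℝ) with hℓ
  have hk3 : 3 / 16 * (n : ℝ) ≤ k := by
    have : (28 : ℝ) ≤ n := le_trans (by norm_num) hnR
    linarith
  have hprod : 3 / 16 * (n : ℝ) * (ℓ - 3) ≤ (k : ℝ) * Real.logb 2 ((k : ℝ) + 1) :=
    mul_le_mul hk3 hlogk (by linarith) (Nat.cast_nonneg k)
  have h5 : 0 ≤ (n : ℝ) * (ℓ - 41) := mul_nonneg hn0.le (by linarith)
  nlinarith

theorem upper (n : ℕ) (hn : 2 ^ 10 ≤ n) :
    Real.logb 2 (N n) ≤ 12 * ((n : ℝ) * Real.logb 2 n) := by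
  have h8 : 8 ≤ n := le_trans (by norm_num) hn
  have hpos : 0 < N n := (nStrict_pos h8).trans_le (NStrict_le n)
  have h1 : N n ≤ (n ^ 6) ^ (2 * n) := by
    refine (upper_count n).trans (Nat.pow_le_pow_left ?_ _)
    have h2 : 1 ≤ n ^ 5 := Nat.one_le_pow _ _ (by omega)
    calc 960 * n ^ 5 + 1 ≤ 2 ^ 10 * n ^ 5 := by omega
      _ ≤ n * n ^ 5 := Nat.mul_le_mul_right _ hn
      _ = n ^ 6 := by ring
  have h2 : (N n : ℝ) ≤ ((n : ℝ) ^ 6) ^ (2 * n) := by exact_mod_cast h1
  have h3 := Real.logb_le_logb_of_le (b := 2) (by norm_num) (by exact_mod_cast hpos) h2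
  rw [Real.logb_pow, Real.logb_pow] at h3
  push_cast at h3
  linarith

theorem theta_of {f : ℕ → ℝ} (h1 : ∀ n : ℕ, 2 ^ 41 ≤ n → 1 / 8 * ((n : ℝ) * Real.logb 2 n) ≤ f n)
    (h2 : ∀ n : ℕ, 2 ^ 41 ≤ n → f n ≤ 12 * ((n : ℝ) * Real.logb 2 n)) :
    f =Θ[atTop] fun n : ℕ => (n : ℝ) * Real.logb 2 n := by
  have hnn : ∀ n : ℕ, 2 ^ 41 ≤ n → 0 ≤ (n : ℝ) * Real.logb 2 n := by
    intro n hn
    apply mul_nonneg (Nat.cast_nonneg n)
    apply Real.logb_nonneg (by norm_num)
    have : 1 ≤ n := le_trans (by norm_num) hn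
    exact_mod_cast this
  constructor
  · apply IsBigO.of_bound 12
    filter_upwards [eventually_ge_atTop (2 ^ 41)] with n hn
    have := hnn n hn
    have := h1 n hn
    have := h2 n hn
    rw [Real.norm_of_nonneg (by linarith), Real.norm_of_nonneg (by linarith)]
    linarith
  · apply IsBigO.of_bound 8
    filter_upwards [eventually_ge_atTop (2 ^ 41)] with n hn
    have := hnn n hn
    have := h1 n hn
    rw [Real.norm_of_nonneg (by linarith), Real.norm_of_nonneg (by linarith)]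
    linarith

/-- **The growth rate of the number of visibility graphs.** `log₂ N(n) = Θ(n log n)`, where `N(n)`
is the number of isomorphism classes of visibility graphs of simple polygons with `n` vertices; the
same holds if flat vertices (with interior angle `π`) are not allowed. -/
theorem result :
    ((fun n : ℕ => Real.logb 2 (N n)) =Θ[atTop] fun n : ℕ => (n : ℝ) * Real.logb 2 n) ∧
      ((fun n : ℕ => Real.logb 2 (NStrict n)) =Θ[atTop] fun n : ℕ => (n : ℝ) * Real.logb 2 n) := by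
  have hle : ∀ n, 2 ^ 41 ≤ n → Real.logb 2 (NStrict n) ≤ Real.logb 2 (N n) := by
    intro n hn
    have h8 : 8 ≤ n := le_trans (by norm_num) hn
    apply Real.logb_le_logb_of_le (by norm_num)
    · exact_mod_cast nStrict_pos h8
    · exact_mod_cast NStrict_le n
  constructor
  · exact theta_of (fun n hn => (lower n hn).trans (hle n hn))
      (fun n hn => upper n (le_trans (by norm_num) hn))
  · exact theta_of (fun n hn => lower n hn)
      (fun n hn => (hle n hn).trans (upper n (le_trans (by norm_num) hn)))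

end Pool.Agent.Results.MP_af711c_co.GrowthRate
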